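import Mathlib
import Pool.Agent.H88.MCR.Drawing

/-!
MP_ffb5eb: reduction of the counterexample (blow-up of an 8-vertex graph) to
* `T20_S` (no drawing of the base graph has 20 given crossings),
* `C4_S` (of the two pairs of opposite edges of a 4-cycle at most one crosses),
* `LOW_S` (a drawing of the blow-up of the graph without the edge 03).
Everything is counted by sets of four vertices.
-/

namespace Pool.MCR.Red

open Pool.MCR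

/-- The edges of the base graph `G0` as pairs. -/
def e0 : List (Fin 8 × Fin 8) :=
  [(0,1),(0,2),(1,6),(2,4),(2,5),(3,5),(3,7),(4,6),(4,7),(6,7),(0,3)]

/-- The edges of the base graph `H0 = G0 - 03`. -/
def h0 : List (Fin 8 × Fin 8) :=
  [(0,1),(0,2),(1,6),(2,4),(2,5),(3,5),(3,7),(4,6),(4,7),(6,7)]

/-- The base graph. -/
def G0 : SimpleGraph (Fin 8) where
  Adj a b := (a, b) ∈ e0 ∨ (b, a) ∈ e0
  symm := ⟨fun _ _ h => h.symm⟩
  loopless := ⟨by decide⟩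

/-- The base graph without the edge `03`. -/
def H0 : SimpleGraph (Fin 8) where
  Adj a b := (a, b) ∈ h0 ∨ (b, a) ∈ h0
  symm := ⟨fun _ _ h => h.symm⟩
  loopless := ⟨by decide⟩

/-- The exponents of the weights. -/
def ex : Fin 8 → ℕ := ![2, 8, 4, 0, 10, 8, 5, 9]

/-- The weights (numbers of twins). -/
def wt (i : Fin 8) : ℕ := 5 ^ ex i

/-- The vertices of the blow-up. -/
abbrev VV := Σ i : Fin 8, Fin (wt i)

/-- The blow-up of a base graph. -/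
def blow (G : SimpleGraph (Fin 8)) : SimpleGraph VV := G.comap (fun x : VV => x.1)

/-- The twenty required pairs of edges `(a,b,c,d)`: `ab` crosses `cd`. -/
def r20 : List (Fin 8 × Fin 8 × Fin 8 × Fin 8) :=
  [(0,1,2,4),(0,1,2,5),(3,5,2,4),(0,1,4,6),(1,6,2,4),(2,5,4,6),(0,2,4,7),(2,5,4,7),(3,5,4,7),
   (0,1,6,7),(1,6,3,7),(1,6,4,7),(2,4,6,7),(3,7,4,6),(3,5,6,7),(0,1,4,7),(2,5,6,7),(1,6,2,5),
   (2,4,3,7),(3,5,4,6)]

/-- The 25 pairs of edges which cross in the drawing of `H0`. -/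
def p25 : List (Fin 8 × Fin 8 × Fin 8 × Fin 8) :=
  r20 ++ [(0,1,3,7),(0,1,3,5),(0,2,3,7),(0,2,3,5),(0,2,6,7)]

/-- T20. -/
def T20_S : Prop := ∀ D : Drawing G0, ¬ ∀ q ∈ r20, D.Crosses s(q.1, q.2.1) s(q.2.2.1, q.2.2.2)

/-- C4. -/
def C4_S : Prop := ∀ (V : Type) (G : SimpleGraph V) (D : Drawing G) (a b c d : V),
  G.Adj a b → G.Adj b c → G.Adj c d → G.Adj d a → a ≠ c → b ≠ d →
  ¬ (D.Crosses s(a, b) s(c, d) ∧ D.Crosses s(b, c) s(d, a))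

/-- LOW. -/
def LOW_S : Prop := ∃ D : Drawing (blow H0),
  (∀ q ∈ p25, ∀ x y z t : VV, x.1 = q.1 → y.1 = q.2.1 → z.1 = q.2.2.1 → t.1 = q.2.2.2 →
    D.Crosses s(x, y) s(z, t)) ∧
  (∀ x x' y z : VV, x ≠ x' → y ≠ z → x.1 = x'.1 → H0.Adj x.1 y.1 → H0.Adj x.1 z.1 →
    D.Crosses s(x, y) s(x', z) ∨ D.Crosses s(x, z) s(x', y))

/-- The four-set `Q` contains two disjoint edges of `G`. -/
def IsQ {V : Type} (G : SimpleGraph V) (Q : Finset V) : Prop :=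
  ∃ a b c d : V, a ≠ b ∧ a ≠ c ∧ a ≠ d ∧ b ≠ c ∧ b ≠ d ∧ c ≠ d ∧
    (∀ v, v ∈ Q ↔ v = a ∨ v = b ∨ v = c ∨ v = d) ∧ G.Adj a b ∧ G.Adj c d

/-- The four-set `Q` contains two disjoint edges which cross. -/
def IsX {V : Type} {G : SimpleGraph V} (D : Drawing G) (Q : Finset V) : Prop :=
  ∃ a b c d : V, a ≠ b ∧ a ≠ c ∧ a ≠ d ∧ b ≠ c ∧ b ≠ d ∧ c ≠ d ∧
    (∀ v, v ∈ Q ↔ v = a ∨ v = b ∨ v = c ∨ v = d) ∧ G.Adj a b ∧ G.Adj c d ∧
    D.Crosses s(a, b) s(c, d)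

/-- RES. Restriction of a drawing along an embedding of a graph: `pos' = pos ∘ φ`,
`arc' e = arc (e.map φ)`. -/
def RES_S : Prop := ∀ (W V : Type) (F : SimpleGraph W) (G : SimpleGraph V) (φ : W → V)
  (D : Drawing G), Function.Injective φ → (∀ a b, F.Adj a b → G.Adj (φ a) (φ b)) →
  ∃ D' : Drawing F, ∀ a b c d, F.Adj a b → F.Adj c d → a ≠ c → a ≠ d → b ≠ c → b ≠ d →
    D.Crosses s(φ a, φ b) s(φ c, φ d) → D'.Crosses s(a, b) s(c, d)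

/-- CNU. The number of crossings is at most the number of crossing four-sets (uses C4: the map
from crossing pairs to four-sets is injective). -/
def CNU_S : Prop := ∀ (V : Type) [Fintype V] (G : SimpleGraph V) (D : Drawing G),
  D.cr ≤ {Q : Finset V | IsX D Q}.ncard

/-- CNL. The number of crossings is at least the number of crossing four-sets. -/
def CNL_S : Prop := ∀ (V : Type) [Fintype V] (G : SimpleGraph V) (D : Drawing G),
  {Q : Finset V | IsX D Q}.ncard ≤ D.cr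

/-- AVG. At least `5^22` four-sets of the blow-up of `G0` do not cross. -/
def AVG_S : Prop := ∀ D : Drawing (blow G0),
  5 ^ 22 ≤ {Q : Finset VV | IsQ (blow G0) Q ∧ ¬ IsX D Q}.ncard

/-- The transversal four-sets over a base four-set. -/
def Tr (a b c d : Fin 8) : Set (Finset VV) :=
  {Q | ∃ x y z t : VV, x.1 = a ∧ y.1 = b ∧ z.1 = c ∧ t.1 = d ∧
    ∀ v, v ∈ Q ↔ v = x ∨ v = y ∨ v = z ∨ v = t}

/-- TRC. -/
def TRC_S : Prop := ∀ a b c d : Fin 8, (Tr a b c d).ncard ≤ wt a * wt b * wt c * wt d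

/-- MIS. The four-sets of the blow-up of `H0` which do not cross in a drawing as in LOW are
transversal over 2357, 1356, 0246, 0126. -/
def MIS_S : Prop := ∀ D : Drawing (blow H0),
  (∀ q ∈ p25, ∀ x y z t : VV, x.1 = q.1 → y.1 = q.2.1 → z.1 = q.2.2.1 → t.1 = q.2.2.2 →
    D.Crosses s(x, y) s(z, t)) →
  (∀ x x' y z : VV, x ≠ x' → y ≠ z → x.1 = x'.1 → H0.Adj x.1 y.1 → H0.Adj x.1 z.1 →
    D.Crosses s(x, y) s(x', z) ∨ D.Crosses s(x, z) s(x', y)) →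
  ∀ Q, IsQ (blow H0) Q → ¬ IsX D Q →
    Q ∈ Tr 2 3 5 7 ∨ Q ∈ Tr 1 3 5 6 ∨ Q ∈ Tr 0 2 4 6 ∨ Q ∈ Tr 0 1 2 6

/-- The four-sets `{x, x', y, z}`, `x, x'` twins of 0, `y` of 3, `z` of type `a`. -/
def Tw (a : Fin 8) : Set (Finset VV) :=
  {Q | ∃ x x' y z : VV, x.1 = 0 ∧ x'.1 = 0 ∧ y.1 = 3 ∧ z.1 = a ∧
    ∀ v, v ∈ Q ↔ v = x ∨ v = x' ∨ v = y ∨ v = z}

/-- TWC. -/
def TWC_S : Prop := ∀ a : Fin 8, (Tw a).ncard ≤ wt 0 * wt 0 * wt 3 * wt a

/-- NEW. The new four-sets. -/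
def NEW_S : Prop := ∀ Q, IsQ (blow G0) Q → ¬ IsQ (blow H0) Q →
  Q ∈ Tr 0 3 4 7 ∨ Q ∈ Tr 0 3 4 6 ∨ Q ∈ Tr 0 3 6 7 ∨ Q ∈ Tr 0 2 3 4 ∨ Q ∈ Tr 0 1 3 6 ∨
    Q ∈ Tw 1 ∨ Q ∈ Tw 2

/-- FIN. -/
def FIN_S : Prop := ∃ (V : Type) (_ : Fintype V) (G H : SimpleGraph V) (D : Drawing H),
  H ≤ G ∧ ∀ D' : Drawing G, D'.cr < D.cr

end Pool.MCR.Red
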