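import Pool.Agent.H57.RED.Stmts

namespace Pool.MCR.Red

open Pool.MCR

theorem crosses_symm {V : Type} {G : SimpleGraph V} (D : Drawing G) (e f : Sym2 V)
    (h : D.Crosses e f) : D.Crosses f e := by
  obtain ⟨p, h1, h2, h3⟩ := h
  exact ⟨p, h2, h1, h3⟩

/-- Facts about the required pairs. -/
theorem r20_adj : ∀ q ∈ r20, (G0.Adj q.1 q.2.1 ∧ G0.Adj q.2.2.1 q.2.2.2) ∧
    q.1 ≠ q.2.1 ∧ q.1 ≠ q.2.2.1 ∧ q.1 ≠ q.2.2.2 ∧ q.2.1 ≠ q.2.2.1 ∧ q.2.1 ≠ q.2.2.2 ∧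
    q.2.2.1 ≠ q.2.2.2 := by
  intro q hq
  have : ((((q.1, q.2.1) ∈ e0 ∨ (q.2.1, q.1) ∈ e0) ∧
      ((q.2.2.1, q.2.2.2) ∈ e0 ∨ (q.2.2.2, q.2.2.1) ∈ e0)) ∧
      q.1 ≠ q.2.1 ∧ q.1 ≠ q.2.2.1 ∧ q.1 ≠ q.2.2.2 ∧ q.2.1 ≠ q.2.2.1 ∧ q.2.1 ≠ q.2.2.2 ∧
      q.2.2.1 ≠ q.2.2.2) := by
    revert q hq
    decide
  exact this

/-- Adjacency in the base graph, as a boolean. -/
def adjb (a b : Fin 8) : Bool := e0.contains (a, b) || e0.contains (b, a)

theorem adjb_iff (a b : Fin 8) : adjb a b = true ↔ ((a, b) ∈ e0 ∨ (b, a) ∈ e0) := by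
  simp [adjb]

def uniqb : Bool := r20.all fun q => [q.1, q.2.1, q.2.2.1, q.2.2.2].all fun α =>
  [q.1, q.2.1, q.2.2.1, q.2.2.2].all fun β => [q.1, q.2.1, q.2.2.1, q.2.2.2].all fun γ =>
  [q.1, q.2.1, q.2.2.1, q.2.2.2].all fun δ =>
    !(adjb α β && adjb γ δ && α != γ && α != δ && β != γ && β != δ) ||
    (((α == q.1 && β == q.2.1) || (α == q.2.1 && β == q.1)) &&
      ((γ == q.2.2.1 && δ == q.2.2.2) || (γ == q.2.2.2 && δ == q.2.2.1))) ||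
    (((γ == q.1 && δ == q.2.1) || (γ == q.2.1 && δ == q.1)) &&
      ((α == q.2.2.1 && β == q.2.2.2) || (α == q.2.2.2 && β == q.2.2.1)))

theorem uniqb_true : uniqb = true := by decide +kernel

theorem r20_uniq : ∀ q ∈ r20, ∀ α ∈ [q.1, q.2.1, q.2.2.1, q.2.2.2],
    ∀ β ∈ [q.1, q.2.1, q.2.2.1, q.2.2.2], ((α, β) ∈ e0 ∨ (β, α) ∈ e0) →
    ∀ γ ∈ [q.1, q.2.1, q.2.2.1, q.2.2.2], α ≠ γ → β ≠ γ →
    ∀ δ ∈ [q.1, q.2.1, q.2.2.1, q.2.2.2],
    α ≠ δ → β ≠ δ → ((γ, δ) ∈ e0 ∨ (δ, γ) ∈ e0) →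
    (((α = q.1 ∧ β = q.2.1) ∨ (α = q.2.1 ∧ β = q.1)) ∧
      ((γ = q.2.2.1 ∧ δ = q.2.2.2) ∨ (γ = q.2.2.2 ∧ δ = q.2.2.1))) ∨
    (((γ = q.1 ∧ δ = q.2.1) ∨ (γ = q.2.1 ∧ δ = q.1)) ∧
      ((α = q.2.2.1 ∧ β = q.2.2.2) ∨ (α = q.2.2.2 ∧ β = q.2.2.1))) := by
  intro q hq α hα β hβ h1 γ hγ h2 h3 δ hδ h4 h5 h6
  have h := uniqb_true
  unfold uniqb at h
  rw [List.all_eq_true] at h
  have h := h q hq
  rw [List.all_eq_true] at h
  have h := h α hα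
  rw [List.all_eq_true] at h
  have h := h β hβ
  rw [List.all_eq_true] at h
  have h := h γ hγ
  rw [List.all_eq_true] at h
  have h := h δ hδ
  rw [← adjb_iff] at h1 h6
  simp only [h1, h6, Bool.or_eq_true, Bool.and_eq_true, Bool.not_eq_true',
    beq_iff_eq, Bool.true_and] at h
  rcases h with (h | h) | h
  · exfalso
    simp only [Bool.and_eq_false_iff, bne_eq_false_iff_eq, h2, h3, h4, h5, or_self] at h
  · exact Or.inl h
  · exact Or.inr h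

def fsum (q : Fin 8 × Fin 8 × Fin 8 × Fin 8) (i : Fin 8) : ℕ :=
  if (i == q.1 || i == q.2.1 || i == q.2.2.1 || i == q.2.2.2) then 0 else ex i

def sumb : Bool := r20.all fun q => Nat.ble (fsum q 0 + fsum q 1 + fsum q 2 + fsum q 3 +
  fsum q 4 + fsum q 5 + fsum q 6 + fsum q 7) 24

theorem sumb_true : sumb = true := by decide +kernel

theorem r20_sum : ∀ q ∈ r20, (∑ i : Fin 8, if i = q.1 ∨ i = q.2.1 ∨ i = q.2.2.1 ∨ i = q.2.2.2
    then 0 else ex i) ≤ 24 := by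
  intro q hq
  have h := sumb_true
  unfold sumb at h
  rw [List.all_eq_true] at h
  have h := Nat.le_of_ble_eq_true (h q hq)
  have h2 : ∀ i : Fin 8, (if i = q.1 ∨ i = q.2.1 ∨ i = q.2.2.1 ∨ i = q.2.2.2
      then 0 else ex i) = fsum q i := by
    intro i
    unfold fsum
    simp only [Bool.or_eq_true, beq_iff_eq, or_assoc]
  rw [Finset.sum_congr rfl (fun i _ => h2 i), Fin.sum_univ_eight]
  exact h

theorem ex_sum : (∑ i : Fin 8, ex i) = 46 := by decide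

/-- The embedding of the base given by a choice of representatives. -/
def emb (ω : (i : Fin 8) → Fin (wt i)) (i : Fin 8) : VV := ⟨i, ω i⟩

theorem emb_inj (ω : (i : Fin 8) → Fin (wt i)) : Function.Injective (emb ω) := by
  intro i j h
  exact congrArg Sigma.fst h

def setOf4 (ω : (i : Fin 8) → Fin (wt i)) (q : Fin 8 × Fin 8 × Fin 8 × Fin 8) : Finset VV :=
  {emb ω q.1, emb ω q.2.1, emb ω q.2.2.1, emb ω q.2.2.2}

theorem mem_setOf4 (ω : (i : Fin 8) → Fin (wt i)) (q : Fin 8 × Fin 8 × Fin 8 × Fin 8) (v : VV) :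
    v ∈ setOf4 ω q ↔ v = emb ω q.1 ∨ v = emb ω q.2.1 ∨ v = emb ω q.2.2.1 ∨
      v = emb ω q.2.2.2 := by
  simp [setOf4]

theorem missing (hT : T20_S) (hR : RES_S) (D : Drawing (blow G0))
    (ω : (i : Fin 8) → Fin (wt i)) :
    ∃ q ∈ r20, IsQ (blow G0) (setOf4 ω q) ∧ ¬ IsX D (setOf4 ω q) := by
  obtain ⟨D', hD'⟩ := hR (Fin 8) VV G0 (blow G0) (emb ω) D (emb_inj ω) (fun a b h => h)
  have h1 := hT D'
  push Not at h1
  obtain ⟨q, hq, hnc⟩ := h1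
  obtain ⟨⟨had, had'⟩, h12, h13, h14, h23, h24, h34⟩ := r20_adj q hq
  have hnc' : ¬ D.Crosses s(emb ω q.1, emb ω q.2.1) s(emb ω q.2.2.1, emb ω q.2.2.2) :=
    fun h => hnc (hD' _ _ _ _ had had' h13 h14 h23 h24 h)
  have inj := emb_inj ω
  refine ⟨q, hq, ⟨emb ω q.1, emb ω q.2.1, emb ω q.2.2.1, emb ω q.2.2.2,
    fun h => h12 (inj h), fun h => h13 (inj h), fun h => h14 (inj h), fun h => h23 (inj h),
    fun h => h24 (inj h), fun h => h34 (inj h), fun v => mem_setOf4 ω q v, had, had'⟩, ?_⟩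
  rintro ⟨a, b, c, d, hab, hac, had2, hbc, hbd, hcd, hm, e1, e2, hx⟩
  have key : ∀ v ∈ setOf4 ω q, ∃ α ∈ [q.1, q.2.1, q.2.2.1, q.2.2.2], v = emb ω α := by
    intro v hv
    rcases (mem_setOf4 ω q v).1 hv with h | h | h | h
    · exact ⟨q.1, by simp, h⟩
    · exact ⟨q.2.1, by simp, h⟩
    · exact ⟨q.2.2.1, by simp, h⟩
    · exact ⟨q.2.2.2, by simp, h⟩
  obtain ⟨α, hα, rfl⟩ := key a ((hm a).2 (Or.inl rfl))
  obtain ⟨β, hβ, rfl⟩ := key b ((hm b).2 (Or.inr (Or.inl rfl)))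
  obtain ⟨γ, hγ, rfl⟩ := key c ((hm c).2 (Or.inr (Or.inr (Or.inl rfl))))
  obtain ⟨δ, hδ, rfl⟩ := key d ((hm d).2 (Or.inr (Or.inr (Or.inr rfl))))
  have u := r20_uniq q hq α hα β hβ e1 γ hγ (fun h => hac (congrArg _ h))
    (fun h => hbc (congrArg _ h)) δ hδ (fun h => had2 (congrArg _ h))
    (fun h => hbd (congrArg _ h)) e2
  apply hnc'
  rcases u with ⟨h1, h2⟩ | ⟨h1, h2⟩
  · rcases h1 with ⟨r1, r2⟩ | ⟨r1, r2⟩ <;> rcases h2 with ⟨r3, r4⟩ | ⟨r3, r4⟩ <;>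
      subst r1 r2 r3 r4
    · exact hx
    · rw [Sym2.eq_swap (a := emb ω q.2.2.1)]; exact hx
    · rw [Sym2.eq_swap (a := emb ω q.1)]; exact hx
    · rw [Sym2.eq_swap (a := emb ω q.1), Sym2.eq_swap (a := emb ω q.2.2.1)]; exact hx
  · have hx' := crosses_symm D _ _ hx
    rcases h1 with ⟨r1, r2⟩ | ⟨r1, r2⟩ <;> rcases h2 with ⟨r3, r4⟩ | ⟨r3, r4⟩ <;>
      subst r1 r2 r3 r4
    · exact hx'
    · rw [Sym2.eq_swap (a := emb ω q.2.2.1)]; exact hx'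
    · rw [Sym2.eq_swap (a := emb ω q.1)]; exact hx'
    · rw [Sym2.eq_swap (a := emb ω q.1), Sym2.eq_swap (a := emb ω q.2.2.1)]; exact hx'

theorem fiber_card (ω0 : (i : Fin 8) → Fin (wt i)) (q : Fin 8 × Fin 8 × Fin 8 × Fin 8)
    (hq : q ∈ r20) :
    (Fintype.piFinset (fun i : Fin 8 =>
      if i = q.1 ∨ i = q.2.1 ∨ i = q.2.2.1 ∨ i = q.2.2.2 then ({ω0 i} : Finset (Fin (wt i)))
      else Finset.univ)).card ≤ 5 ^ 24 := by
  rw [Fintype.card_piFinset]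
  have h : ∀ i : Fin 8, (if i = q.1 ∨ i = q.2.1 ∨ i = q.2.2.1 ∨ i = q.2.2.2
      then ({ω0 i} : Finset (Fin (wt i))) else Finset.univ).card =
      5 ^ (if i = q.1 ∨ i = q.2.1 ∨ i = q.2.2.1 ∨ i = q.2.2.2 then 0 else ex i) := by
    intro i
    split_ifs
    · simp
    · rw [Finset.card_univ, Fintype.card_fin]; rfl
  rw [Finset.prod_congr rfl (fun i _ => h i), Finset.prod_pow_eq_pow_sum]
  exact Nat.pow_le_pow_right (by norm_num) (r20_sum q hq)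

theorem count_gen {Ω β : Type} [Fintype Ω] [Finite β] (f : Ω → β) (M : Set β) (K : ℕ)
    (hf : ∀ ω, f ω ∈ M) (hfib : ∀ ω0 : Ω, {ω | f ω = f ω0}.ncard ≤ K) :
    Fintype.card Ω ≤ K * M.ncard := by
  classical
  have h1 : (Finset.univ : Finset Ω).card ≤ K * (Finset.univ.image f).card := by
    apply Finset.card_le_mul_card_image
    intro Q hQ
    obtain ⟨ω0, -, rfl⟩ := Finset.mem_image.1 hQ
    refine le_trans (le_of_eq ?_) (hfib ω0)
    rw [← Set.ncard_coe_finset]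
    congr 1
    ext ω
    simp
  rw [Finset.card_univ] at h1
  refine le_trans h1 (Nat.mul_le_mul_left K ?_)
  rw [← Set.ncard_coe_finset]
  apply Set.ncard_le_ncard _ (Set.toFinite _)
  intro Q hQ
  obtain ⟨ω, -, rfl⟩ := Finset.mem_image.1 (Finset.mem_coe.1 hQ)
  exact hf ω

theorem fiber_sub (ω ω0 : (i : Fin 8) → Fin (wt i)) (q q0 : Fin 8 × Fin 8 × Fin 8 × Fin 8)
    (h : setOf4 ω q = setOf4 ω0 q0) :
    ω ∈ Fintype.piFinset (fun i : Fin 8 =>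
      if i = q0.1 ∨ i = q0.2.1 ∨ i = q0.2.2.1 ∨ i = q0.2.2.2 then
      ({ω0 i} : Finset (Fin (wt i))) else Finset.univ) := by
  rw [Fintype.mem_piFinset]
  intro i
  split_ifs with hi
  · rw [Finset.mem_singleton]
    have hm : emb ω0 i ∈ setOf4 ω0 q0 := by
      rw [mem_setOf4]
      rcases hi with h | h | h | h
      · exact Or.inl (congrArg _ h)
      · exact Or.inr (Or.inl (congrArg _ h))
      · exact Or.inr (Or.inr (Or.inl (congrArg _ h)))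
      · exact Or.inr (Or.inr (Or.inr (congrArg _ h)))
    rw [← h, mem_setOf4] at hm
    have : ∀ j, emb ω0 i = emb ω j → ω i = ω0 i := by
      intro j hj
      have hij : i = j := congrArg Sigma.fst hj
      subst hij
      have := eq_of_heq (Sigma.mk.inj hj).2
      exact this.symm
    rcases hm with h | h | h | h <;> exact this _ h
  · exact Finset.mem_univ _

theorem avg_thm (hT : T20_S) (hR : RES_S) : AVG_S := by
  intro D
  choose q hq hQ hX using missing hT hR D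
  have h1 := count_gen (fun ω => setOf4 ω (q ω)) {Q : Finset VV | IsQ (blow G0) Q ∧ ¬ IsX D Q}
    (5 ^ 24) (fun ω => ⟨hQ ω, hX ω⟩) (by
      intro ω0
      refine le_trans ?_ (fiber_card ω0 (q ω0) (hq ω0))
      rw [← Set.ncard_coe_finset]
      apply Set.ncard_le_ncard _ (Set.toFinite _)
      intro ω hω
      exact Finset.mem_coe.2 (fiber_sub ω ω0 (q ω) (q ω0) hω))
  have h2 : Fintype.card ((i : Fin 8) → Fin (wt i)) = 5 ^ 46 := by
    rw [Fintype.card_pi]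
    have : ∀ i : Fin 8, Fintype.card (Fin (wt i)) = 5 ^ ex i := fun i => by
      rw [Fintype.card_fin]; rfl
    rw [Finset.prod_congr rfl (fun i _ => this i), Finset.prod_pow_eq_pow_sum, ex_sum]
  rw [h2, show (5 : ℕ) ^ 46 = 5 ^ 24 * 5 ^ 22 by norm_num] at h1
  exact Nat.le_of_mul_le_mul_left h1 (by positivity)

end Pool.MCR.Red
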