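import Pool.Agent.H57.RED.Stmts

namespace Pool.MCR.Red

open Pool.MCR

theorem isX_isQ {V : Type} {G : SimpleGraph V} (D : Drawing G) (Q : Finset V) (h : IsX D Q) :
    IsQ G Q := by
  obtain ⟨a, b, c, d, h1, h2, h3, h4, h5, h6, hm, e1, e2, -⟩ := h
  exact ⟨a, b, c, d, h1, h2, h3, h4, h5, h6, hm, e1, e2⟩

theorem H0_le_G0 : H0 ≤ G0 := by
  intro a b h
  have h : (a, b) ∈ h0 ∨ (b, a) ∈ h0 := h
  have key : ∀ q ∈ h0, q ∈ e0 := by decide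
  exact h.imp (key _) (key _)

theorem blow_le : blow H0 ≤ blow G0 := by
  intro a b h
  exact H0_le_G0 h

theorem split_card {V : Type} [Fintype V] {G : SimpleGraph V} (D : Drawing G) :
    {Q : Finset V | IsX D Q}.ncard + {Q : Finset V | IsQ G Q ∧ ¬ IsX D Q}.ncard =
      {Q : Finset V | IsQ G Q}.ncard := by
  classical
  rw [← Set.ncard_union_eq _ (Set.toFinite _) (Set.toFinite _)]
  · congr 1
    ext Q
    simp only [Set.mem_union, Set.mem_setOf_eq]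
    constructor
    · rintro (h | h)
      · exact isX_isQ D Q h
      · exact h.1
    · intro h
      by_cases hx : IsX D Q
      · exact Or.inl hx
      · exact Or.inr ⟨h, hx⟩
  · rw [Set.disjoint_left]
    rintro Q h1 ⟨-, h2⟩
    exact h2 h1

theorem numbers : wt 2 * wt 3 * wt 5 * wt 7 + wt 1 * wt 3 * wt 5 * wt 6 +
    wt 0 * wt 2 * wt 4 * wt 6 + wt 0 * wt 1 * wt 2 * wt 6 +
    (wt 0 * wt 3 * wt 4 * wt 7 + wt 0 * wt 3 * wt 4 * wt 6 + wt 0 * wt 3 * wt 6 * wt 7 +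
    wt 0 * wt 2 * wt 3 * wt 4 + wt 0 * wt 1 * wt 3 * wt 6 + wt 0 * wt 0 * wt 3 * wt 1 +
    wt 0 * wt 0 * wt 3 * wt 2) < 5 ^ 22 := by
  have h0 : wt 0 = 5 ^ 2 := rfl
  have h1 : wt 1 = 5 ^ 8 := rfl
  have h2 : wt 2 = 5 ^ 4 := rfl
  have h3 : wt 3 = 5 ^ 0 := rfl
  have h4 : wt 4 = 5 ^ 10 := rfl
  have h5 : wt 5 = 5 ^ 8 := rfl
  have h6 : wt 6 = 5 ^ 5 := rfl
  have h7 : wt 7 = 5 ^ 9 := rfl
  rw [h0, h1, h2, h3, h4, h5, h6, h7]
  norm_num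

theorem fin_thm (hCNU : CNU_S) (hCNL : CNL_S) (hAVG : AVG_S) (hTRC : TRC_S) (hTWC : TWC_S)
    (hMIS : MIS_S) (hNEW : NEW_S) (hLOW : LOW_S) :
    ∃ D : Drawing (blow H0), ∀ D' : Drawing (blow G0), D'.cr < D.cr := by
  obtain ⟨D, hD1, hD2⟩ := hLOW
  refine ⟨D, fun D' => ?_⟩
  have a1 := hCNU VV (blow G0) D'
  have a2 := hCNL VV (blow H0) D
  have a3 := split_card D
  have a4 := split_card D'
  have a5 := hAVG D'
  have a6 : {Q : Finset VV | IsQ (blow H0) Q ∧ ¬ IsX D Q}.ncard ≤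
      wt 2 * wt 3 * wt 5 * wt 7 + wt 1 * wt 3 * wt 5 * wt 6 +
      wt 0 * wt 2 * wt 4 * wt 6 + wt 0 * wt 1 * wt 2 * wt 6 := by
    have hs : {Q : Finset VV | IsQ (blow H0) Q ∧ ¬ IsX D Q} ⊆
        Tr 2 3 5 7 ∪ Tr 1 3 5 6 ∪ Tr 0 2 4 6 ∪ Tr 0 1 2 6 := by
      rintro Q ⟨h1, h2⟩
      have := hMIS D hD1 hD2 Q h1 h2
      simp only [Set.mem_union]
      tauto
    refine le_trans (Set.ncard_le_ncard hs (Set.toFinite _)) ?_
    refine le_trans (Set.ncard_union_le _ _) (Nat.add_le_add ?_ (hTRC _ _ _ _))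
    refine le_trans (Set.ncard_union_le _ _) (Nat.add_le_add ?_ (hTRC _ _ _ _))
    exact le_trans (Set.ncard_union_le _ _) (Nat.add_le_add (hTRC _ _ _ _) (hTRC _ _ _ _))
  have a7 : {Q : Finset VV | IsQ (blow G0) Q}.ncard ≤ {Q : Finset VV | IsQ (blow H0) Q}.ncard +
      (wt 0 * wt 3 * wt 4 * wt 7 + wt 0 * wt 3 * wt 4 * wt 6 + wt 0 * wt 3 * wt 6 * wt 7 +
      wt 0 * wt 2 * wt 3 * wt 4 + wt 0 * wt 1 * wt 3 * wt 6 + wt 0 * wt 0 * wt 3 * wt 1 +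
      wt 0 * wt 0 * wt 3 * wt 2) := by
    have hs : {Q : Finset VV | IsQ (blow G0) Q} ⊆ {Q : Finset VV | IsQ (blow H0) Q} ∪
        (Tr 0 3 4 7 ∪ Tr 0 3 4 6 ∪ Tr 0 3 6 7 ∪ Tr 0 2 3 4 ∪ Tr 0 1 3 6 ∪ Tw 1 ∪ Tw 2) := by
      intro Q h1
      by_cases h2 : IsQ (blow H0) Q
      · exact Or.inl h2
      · right
        have := hNEW Q h1 h2
        simp only [Set.mem_union]
        tauto
    refine le_trans (Set.ncard_le_ncard hs (Set.toFinite _)) ?_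
    refine le_trans (Set.ncard_union_le _ _) (Nat.add_le_add_left ?_ _)
    refine le_trans (Set.ncard_union_le _ _) (Nat.add_le_add ?_ (hTWC _))
    refine le_trans (Set.ncard_union_le _ _) (Nat.add_le_add ?_ (hTWC _))
    refine le_trans (Set.ncard_union_le _ _) (Nat.add_le_add ?_ (hTRC _ _ _ _))
    refine le_trans (Set.ncard_union_le _ _) (Nat.add_le_add ?_ (hTRC _ _ _ _))
    refine le_trans (Set.ncard_union_le _ _) (Nat.add_le_add ?_ (hTRC _ _ _ _))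
    exact le_trans (Set.ncard_union_le _ _) (Nat.add_le_add (hTRC _ _ _ _) (hTRC _ _ _ _))
  have a8 := numbers
  revert a1 a2 a3 a4 a5 a6 a7 a8
  generalize wt 2 * wt 3 * wt 5 * wt 7 + wt 1 * wt 3 * wt 5 * wt 6 +
      wt 0 * wt 2 * wt 4 * wt 6 + wt 0 * wt 1 * wt 2 * wt 6 = A
  generalize (wt 0 * wt 3 * wt 4 * wt 7 + wt 0 * wt 3 * wt 4 * wt 6 +
    wt 0 * wt 3 * wt 6 * wt 7 + wt 0 * wt 2 * wt 3 * wt 4 + wt 0 * wt 1 * wt 3 * wt 6 +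
    wt 0 * wt 0 * wt 3 * wt 1 + wt 0 * wt 0 * wt 3 * wt 2) = B
  generalize (5 : ℕ) ^ 22 = C
  intro a1 a2 a3 a4 a5 a6 a7 a8
  omega

end Pool.MCR.Red
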