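import Pool.Agent.H57.RED.Stmts

namespace Pool.MCR.Red

open Pool.MCR

def adjbN (a b : Fin 8) : Bool := e0.contains (a, b) || e0.contains (b, a)

theorem adjbN_iff (a b : Fin 8) : adjbN a b = true ↔ G0.Adj a b := by
  unfold G0
  simp [adjbN]

theorem notH' : ∀ α β : Fin 8, ((α, β) ∈ e0 ∨ (β, α) ∈ e0) → ¬ ((α, β) ∈ h0 ∨ (β, α) ∈ h0) →
    (α = 0 ∧ β = 3) ∨ (α = 3 ∧ β = 0) := by
  decide

theorem notH (α β : Fin 8) (h : G0.Adj α β) (h' : ¬ H0.Adj α β) :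
    (α = 0 ∧ β = 3) ∨ (α = 3 ∧ β = 0) := notH' α β h h'

def l16 : List (Fin 8 × Fin 8) := [(0,1),(1,0),(0,2),(2,0),(1,6),(6,1),(2,4),(4,2),(2,5),(5,2),
  (4,6),(6,4),(4,7),(7,4),(6,7),(7,6)]

theorem cases16b : ∀ γ δ : Fin 8, (adjbN γ δ && (γ != 3) && (δ != 3)) = true →
    (γ, δ) ∈ l16 := by
  decide

theorem cases16' (γ δ : Fin 8) (h : G0.Adj γ δ) (h1 : γ ≠ 3) (h2 : δ ≠ 3) :
    (γ, δ) ∈ l16 := by
  apply cases16b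
  rw [Bool.and_eq_true, Bool.and_eq_true]
  exact ⟨⟨(adjbN_iff γ δ).2 h, bne_iff_ne.2 h1⟩, bne_iff_ne.2 h2⟩

theorem cases16 (γ δ : Fin 8) (h : G0.Adj γ δ) (h1 : γ ≠ 3) (h2 : δ ≠ 3) :
    (γ = 0 ∧ δ = 1) ∨ (γ = 1 ∧ δ = 0) ∨ (γ = 0 ∧ δ = 2) ∨ (γ = 2 ∧ δ = 0) ∨
    (γ = 1 ∧ δ = 6) ∨ (γ = 6 ∧ δ = 1) ∨ (γ = 2 ∧ δ = 4) ∨ (γ = 4 ∧ δ = 2) ∨
    (γ = 2 ∧ δ = 5) ∨ (γ = 5 ∧ δ = 2) ∨ (γ = 4 ∧ δ = 6) ∨ (γ = 6 ∧ δ = 4) ∨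
    (γ = 4 ∧ δ = 7) ∨ (γ = 7 ∧ δ = 4) ∨ (γ = 6 ∧ δ = 7) ∨ (γ = 7 ∧ δ = 6) := by
  have := cases16' γ δ h h1 h2
  simpa only [l16, List.mem_cons, List.not_mem_nil, or_false, Prod.mk.injEq] using this

theorem uniq3 (x y : VV) (hx : x.1 = 3) (hy : y.1 = 3) : x = y := by
  obtain ⟨a, i⟩ := x
  obtain ⟨b, j⟩ := y
  simp only at hx hy
  subst hx
  subst hy
  have hw : wt 3 = 1 := rfl
  have : i = j := by
    apply Fin.ext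
    have h1 := i.2
    have h2 := j.2
    omega
  rw [this]

theorem h02 : H0.Adj 0 2 := Or.inl (by decide)
theorem h35 : H0.Adj 3 5 := Or.inl (by decide)

theorem new_aux (Q : Finset VV) (a b c d : VV) (hab : a ≠ b) (hac : a ≠ c) (had : a ≠ d)
    (hbc : b ≠ c) (hbd : b ≠ d) (hcd : c ≠ d)
    (hm : ∀ v, v ∈ Q ↔ v = a ∨ v = b ∨ v = c ∨ v = d) (ha : a.1 = 0) (hb : b.1 = 3)
    (e2 : G0.Adj c.1 d.1) (hH : ¬ IsQ (blow H0) Q) :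
    Q ∈ Tr 0 3 4 7 ∨ Q ∈ Tr 0 3 4 6 ∨ Q ∈ Tr 0 3 6 7 ∨ Q ∈ Tr 0 2 3 4 ∨ Q ∈ Tr 0 1 3 6 ∨
    Q ∈ Tw 1 ∨ Q ∈ Tw 2 := by
  have hc3 : c.1 ≠ 3 := fun h => hbc (uniq3 b c hb h)
  have hd3 : d.1 ≠ 3 := fun h => hbd (uniq3 b d hb h)
  rcases cases16 c.1 d.1 e2 hc3 hd3 with
    ⟨h1, h2⟩ | ⟨h1, h2⟩ | ⟨h1, h2⟩ | ⟨h1, h2⟩ | ⟨h1, h2⟩ | ⟨h1, h2⟩ | ⟨h1, h2⟩ | ⟨h1, h2⟩ |
    ⟨h1, h2⟩ | ⟨h1, h2⟩ | ⟨h1, h2⟩ | ⟨h1, h2⟩ | ⟨h1, h2⟩ | ⟨h1, h2⟩ | ⟨h1, h2⟩ | ⟨h1, h2⟩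
  · exact Or.inr (Or.inr (Or.inr (Or.inr (Or.inr (Or.inl ⟨a, c, b, d, ha, h1, hb, h2,
      fun v => by rw [hm v]; tauto⟩)))))
  · exact Or.inr (Or.inr (Or.inr (Or.inr (Or.inr (Or.inl ⟨a, d, b, c, ha, h2, hb, h1,
      fun v => by rw [hm v]; tauto⟩)))))
  · exact Or.inr (Or.inr (Or.inr (Or.inr (Or.inr (Or.inr ⟨a, c, b, d, ha, h1, hb, h2,
      fun v => by rw [hm v]; tauto⟩)))))
  · exact Or.inr (Or.inr (Or.inr (Or.inr (Or.inr (Or.inr ⟨a, d, b, c, ha, h2, hb, h1,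
      fun v => by rw [hm v]; tauto⟩)))))
  · exact Or.inr (Or.inr (Or.inr (Or.inr (Or.inl ⟨a, c, b, d, ha, h1, hb, h2,
      fun v => by rw [hm v]; tauto⟩))))
  · exact Or.inr (Or.inr (Or.inr (Or.inr (Or.inl ⟨a, d, b, c, ha, h2, hb, h1,
      fun v => by rw [hm v]; tauto⟩))))
  · exact Or.inr (Or.inr (Or.inr (Or.inl ⟨a, c, b, d, ha, h1, hb, h2,
      fun v => by rw [hm v]; tauto⟩)))
  · exact Or.inr (Or.inr (Or.inr (Or.inl ⟨a, d, b, c, ha, h2, hb, h1,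
      fun v => by rw [hm v]; tauto⟩)))
  · exfalso
    apply hH
    refine ⟨a, c, b, d, hac, hab, had, fun h => hbc h.symm, hcd, hbd, fun v => by
      rw [hm v]; tauto, ?_, ?_⟩
    · show H0.Adj a.1 c.1
      rw [ha, h1]; exact h02
    · show H0.Adj b.1 d.1
      rw [hb, h2]; exact h35
  · exfalso
    apply hH
    refine ⟨a, d, b, c, had, hab, hac, fun h => hbd h.symm, fun h => hcd h.symm, hbc,
      fun v => by rw [hm v]; tauto, ?_, ?_⟩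
    · show H0.Adj a.1 d.1
      rw [ha, h2]; exact h02
    · show H0.Adj b.1 c.1
      rw [hb, h1]; exact h35
  · exact Or.inr (Or.inl ⟨a, b, c, d, ha, hb, h1, h2, hm⟩)
  · exact Or.inr (Or.inl ⟨a, b, d, c, ha, hb, h2, h1, fun v => by rw [hm v]; tauto⟩)
  · exact Or.inl ⟨a, b, c, d, ha, hb, h1, h2, hm⟩
  · exact Or.inl ⟨a, b, d, c, ha, hb, h2, h1, fun v => by rw [hm v]; tauto⟩
  · exact Or.inr (Or.inr (Or.inl ⟨a, b, c, d, ha, hb, h1, h2, hm⟩))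
  · exact Or.inr (Or.inr (Or.inl ⟨a, b, d, c, ha, hb, h2, h1, fun v => by rw [hm v]; tauto⟩))

theorem new_thm : NEW_S := by
  rintro Q ⟨a, b, c, d, hab, hac, had, hbc, hbd, hcd, hm, e1, e2⟩ hH
  have e1 : G0.Adj a.1 b.1 := e1
  have e2 : G0.Adj c.1 d.1 := e2
  by_cases h1 : H0.Adj a.1 b.1
  · by_cases h2 : H0.Adj c.1 d.1
    · exact absurd ⟨a, b, c, d, hab, hac, had, hbc, hbd, hcd, hm, h1, h2⟩ hH
    · rcases notH _ _ e2 h2 with ⟨r1, r2⟩ | ⟨r1, r2⟩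
      · exact new_aux Q c d a b hcd hac.symm hbc.symm had.symm hbd.symm hab
          (fun v => by rw [hm v]; tauto) r1 r2 e1 hH
      · exact new_aux Q d c a b hcd.symm had.symm hbd.symm hac.symm hbc.symm hab
          (fun v => by rw [hm v]; tauto) r2 r1 e1 hH
  · rcases notH _ _ e1 h1 with ⟨r1, r2⟩ | ⟨r1, r2⟩
    · exact new_aux Q a b c d hab hac had hbc hbd hcd hm r1 r2 e2 hH
    · exact new_aux Q b a c d hab.symm hbc hbd hac had hcd (fun v => by rw [hm v]; tauto)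
        r2 r1 e2 hH

end Pool.MCR.Red
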