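import Pool.Agent.H57.RED.Stmts

namespace Pool.MCR.Red

open Pool.MCR

theorem res_end {W V : Type} {F : SimpleGraph W} {G : SimpleGraph V} (φ : W → V)
    (D : Drawing G) (hF : ∀ a b, F.Adj a b → G.Adj (φ a) (φ b)) (e : Sym2 W)
    (he : e ∈ F.edgeSet) (p : ℝ × ℝ) (hp : p ∈ D.arc (e.map φ)) (hr : p ∈ Set.range D.pos) :
    p ∈ Set.range (D.pos ∘ φ) := by
  induction e using Sym2.ind with
  | _ a b =>
    rw [SimpleGraph.mem_edgeSet] at he
    rw [Sym2.map_mk] at hp
    obtain ⟨v, rfl⟩ := hr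
    rcases D.arc_vertex _ _ v (hF a b he) hp with h | h
    · exact ⟨a, by rw [h]; rfl⟩
    · exact ⟨b, by rw [h]; rfl⟩

theorem res_edge {W V : Type} {F : SimpleGraph W} {G : SimpleGraph V} (φ : W → V)
    (hF : ∀ a b, F.Adj a b → G.Adj (φ a) (φ b)) (e : Sym2 W) (he : e ∈ F.edgeSet) :
    e.map φ ∈ G.edgeSet := by
  induction e using Sym2.ind with
  | _ a b =>
    rw [SimpleGraph.mem_edgeSet] at he
    rw [Sym2.map_mk, SimpleGraph.mem_edgeSet]
    exact hF a b he

/-- The restriction of a drawing along an embedding. -/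
noncomputable def restr {W V : Type} {F : SimpleGraph W} {G : SimpleGraph V} (φ : W → V)
    (D : Drawing G) (hφ : Function.Injective φ) (hF : ∀ a b, F.Adj a b → G.Adj (φ a) (φ b)) :
    Drawing F where
  pos := D.pos ∘ φ
  arc e := D.arc (e.map φ)
  pos_inj := D.pos_inj.comp hφ
  arc_curve u v h := by
    rw [Sym2.map_mk]
    exact D.arc_curve _ _ (hF u v h)
  arc_vertex u v w h hw := by
    rw [Sym2.map_mk] at hw
    rcases D.arc_vertex _ _ _ (hF u v h) hw with h | h
    · exact Or.inl (hφ h)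
    · exact Or.inr (hφ h)
  arc_inter e he f hf hne := D.arc_inter _ (res_edge φ hF e he) _ (res_edge φ hF f hf)
    (fun h => hne (Sym2.map.injective hφ h))
  arc_triple e he f hf g hg hef heg hfg p h1 h2 h3 :=
    res_end φ D hF e he p h1 (D.arc_triple _ (res_edge φ hF e he) _ (res_edge φ hF f hf) _
      (res_edge φ hF g hg) (fun h => hef (Sym2.map.injective hφ h))
      (fun h => heg (Sym2.map.injective hφ h)) (fun h => hfg (Sym2.map.injective hφ h)) p h1 h2 h3)
  arc_proper e he f hf hne p h1 h2 h3 := D.arc_proper _ (res_edge φ hF e he) _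
    (res_edge φ hF f hf) (fun h => hne (Sym2.map.injective hφ h)) p h1 h2
    (fun h => h3 (res_end φ D hF e he p h1 h))

theorem res_thm : RES_S := by
  intro W V F G φ D hφ hF
  refine ⟨restr φ D hφ hF, ?_⟩
  rintro a b c d - - - - - - ⟨p, h1, h2, h3⟩
  refine ⟨p, h1, h2, ?_⟩
  rintro ⟨w, rfl⟩
  exact h3 ⟨φ w, rfl⟩

end Pool.MCR.Red
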