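import Pool.Agent.H57.RED.Stmts

namespace Pool.MCR.Red

open Pool.MCR

theorem ncard_range_le {α β : Type} [Finite α] (g : α → β) (S : Set β)
    (h : S ⊆ Set.range g) : S.ncard ≤ Nat.card α := by
  rw [← Set.image_univ] at h
  refine le_trans (Set.ncard_le_ncard h (Set.toFinite _)) ?_
  refine le_trans (Set.ncard_image_le (Set.toFinite _)) ?_
  rw [Set.ncard_univ]

theorem mk_eq {v : VV} {a : Fin 8} (h : v.1 = a) : ∃ i : Fin (wt a), v = ⟨a, i⟩ := by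
  subst h
  exact ⟨v.2, rfl⟩

def mk4 (v x y z : VV) : Finset VV := {v, x, y, z}

theorem mk4_eq (Q : Finset VV) (x y z t : VV)
    (h : ∀ v, v ∈ Q ↔ v = x ∨ v = y ∨ v = z ∨ v = t) : mk4 x y z t = Q := by
  ext v
  rw [h v]
  simp [mk4]

theorem trc_thm : TRC_S := by
  intro a b c d
  refine le_trans (ncard_range_le (fun p : Fin (wt a) × Fin (wt b) × Fin (wt c) × Fin (wt d) =>
    mk4 ⟨a, p.1⟩ ⟨b, p.2.1⟩ ⟨c, p.2.2.1⟩ ⟨d, p.2.2.2⟩) _ ?_) (le_of_eq ?_)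
  · rintro Q ⟨x, y, z, t, hx, hy, hz, ht, h⟩
    obtain ⟨i, rfl⟩ := mk_eq hx
    obtain ⟨j, rfl⟩ := mk_eq hy
    obtain ⟨k, rfl⟩ := mk_eq hz
    obtain ⟨l, rfl⟩ := mk_eq ht
    exact ⟨(i, j, k, l), mk4_eq Q _ _ _ _ h⟩
  · rw [Nat.card_prod, Nat.card_prod, Nat.card_prod, Nat.card_fin, Nat.card_fin, Nat.card_fin,
      Nat.card_fin]
    ring

theorem twc_thm : TWC_S := by
  intro a
  refine le_trans (ncard_range_le (fun p : Fin (wt 0) × Fin (wt 0) × Fin (wt 3) × Fin (wt a) =>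
    mk4 ⟨0, p.1⟩ ⟨0, p.2.1⟩ ⟨3, p.2.2.1⟩ ⟨a, p.2.2.2⟩) _ ?_) (le_of_eq ?_)
  · rintro Q ⟨x, y, z, t, hx, hy, hz, ht, h⟩
    obtain ⟨i, rfl⟩ := mk_eq hx
    obtain ⟨j, rfl⟩ := mk_eq hy
    obtain ⟨k, rfl⟩ := mk_eq hz
    obtain ⟨l, rfl⟩ := mk_eq ht
    exact ⟨(i, j, k, l), mk4_eq Q _ _ _ _ h⟩
  · rw [Nat.card_prod, Nat.card_prod, Nat.card_prod, Nat.card_fin, Nat.card_fin, Nat.card_fin]
    ring

end Pool.MCR.Red
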