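import Pool.Agent.H57.RED.AVG
import Pool.Agent.H57.RED.TRC
import Pool.Agent.H57.RED.NEW
import Pool.Agent.H57.RED.FIN
import Pool.Agent.H57.RED.RES
import Pool.Agent.H15.RED.MIS
import Pool.Agent.H52.RED.CNL
import Pool.Agent.H66.RED.CNU
import Pool.Agent.H76.MXT.Asm

namespace Pool.MCR.Red

open Pool.MCR

theorem c4_done : C4_S := by
  rintro V G D a b c d hab hbc hcd hda hac hbd ⟨h1, h2⟩
  refine Pool.MXT.c4 D a b d c hab hcd.symm hda.symm hbc hac hbd ?_ ?_
  · rw [Sym2.eq_swap (a := d)]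
    exact h1
  · rw [Sym2.eq_swap (a := a)]
    exact crosses_symm D _ _ h2

/-- The counterexample, from the two remaining facts. -/
theorem red_thm (hT : T20_S) (hL : LOW_S) :
    ∃ D : Drawing (blow H0), ∀ D' : Drawing (blow G0), D'.cr < D.cr :=
  fin_thm (cnu_thm c4_done) cnl_thm (avg_thm hT res_thm) trc_thm twc_thm mis_thm new_thm hL

end Pool.MCR.Red
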