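import Pool.Agent.H57.RED.Final
import Pool.Agent.H96.FFB.T20Red

/-!
# The counterexample to subgraph monotonicity of the maximum crossing number (MP_ffb5eb, Q1)
-/

namespace Pool.MCR.Red

open Pool.MCR

/-- Subgraph monotonicity of the maximum crossing number fails. -/
theorem done : ∃ (V : Type) (_ : Finite V) (G H : SimpleGraph V) (D : Drawing H),
    H ≤ G ∧ Nonempty (Drawing G) ∧ ∀ D' : Drawing G, D'.cr < D.cr :=
  final Pool.FFL.t20_red

/-- The same with the maximum. -/
theorem done_max : ∃ (V : Type) (_ : Finite V) (G H : SimpleGraph V),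
    H ≤ G ∧ maxCr G < maxCr H :=
  final_max Pool.FFL.t20_red

end Pool.MCR.Red
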