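import Pool.Agent.H57.RED.Asm
import Pool.Agent.H45.MCR.Asm3

/-!
# The counterexample to subgraph monotonicity of the maximum crossing number (MP_ffb5eb, Q1)
-/

namespace Pool.MCR.Red

open Pool.MCR

theorem blow_mono {A B : SimpleGraph (Fin 8)} (h : A ≤ B) : blow A ≤ blow B :=
  fun _ _ hab => h hab

/-- Every finite graph has a topological drawing. -/
theorem exists_drawing (V : Type) [Finite V] (G : SimpleGraph V) : Nonempty (Drawing G) := by
  classical
  have : Fintype V := Fintype.ofFinite V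
  obtain ⟨⟨D, -⟩, -, -⟩ := fin_done V V (⊥ : SimpleGraph V) G id SimpleGraph.isAcyclic_bot
    Function.injective_id (fun a b h => absurd h (by simp))
  exact ⟨D⟩

/-- The counterexample, from the twenty pairs. -/
theorem final (hT : T20_S) : ∃ (V : Type) (_ : Finite V) (G H : SimpleGraph V) (D : Drawing H),
    H ≤ G ∧ Nonempty (Drawing G) ∧ ∀ D' : Drawing G, D'.cr < D.cr := by
  obtain ⟨D, hD⟩ := red_thm hT low57_done
  exact ⟨VV, inferInstance, blow G0, blow H0, D, blow_mono H0_le_G0, exists_drawing VV _, hD⟩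

/-- The same with the maximum. -/
theorem final_max (hT : T20_S) : ∃ (V : Type) (_ : Finite V) (G H : SimpleGraph V),
    H ≤ G ∧ maxCr G < maxCr H := by
  obtain ⟨V, hV, G, H, D, hHG, ⟨E⟩, hD⟩ := final hT
  have : Fintype V := Fintype.ofFinite V
  refine ⟨V, hV, G, H, hHG, ?_⟩
  have h1 : D.cr ≤ maxCr H := le_csSup (maxCr_bdd upb_thm H) ⟨D, rfl⟩
  refine lt_of_lt_of_le ?_ h1
  have h2 : maxCr G ∈ {k : ℕ | ∃ D : Drawing G, D.cr = k} :=
    Nat.sSup_mem ⟨E.cr, E, rfl⟩ (maxCr_bdd upb_thm G)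
  obtain ⟨D', h'⟩ := h2
  rw [← h']
  exact hD D'

end Pool.MCR.Red
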